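import Pool.Agent.L7h83.BC.Wg
import Pool.Agent.L7h83.BC.Rg
import Mathlib.NumberTheory.Padics.RingHoms
import Mathlib.NumberTheory.Padics.ProperSpace

/-!
# Project CX: part EX (helper73 for helper83)
-/

set_option autoImplicit false

noncomputable section

namespace Pool.Agent.L7h73.BC

open BQ IsLocalRing Pool.Agent.W394.BQN Pool.Agent.H40.BP Pool.Agent.N510.BC Pool.Agent.L7h83.BC

/-- the maximal ideal under surjective homomorphisms -/
theorem map_max {A B : Type} [CommRing A] [IsLocalRing A] [CommRing B] [IsLocalRing B]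
    (q : A →+* B) (hq : Function.Surjective q) : (maximalIdeal A).map q = maximalIdeal B := by
  apply le_antisymm
  · rw [Ideal.map_le_iff_le_comap]
    intro a ha
    rw [Ideal.mem_comap, mem_maximalIdeal, mem_nonunits_iff]
    intro hu
    obtain ⟨z, hz⟩ := hu.exists_right_inv
    obtain ⟨b, rfl⟩ := hq z
    have h1 : IsUnit (1 - a * b) := by
      apply isUnit_of_mem_nonunits_one_sub_self
      rw [sub_sub_cancel]
      exact (mem_maximalIdeal _).1 (Ideal.mul_mem_right _ _ ha)
    have h2 := h1.map q
    rw [map_sub, map_mul, hz, map_one, sub_self] at h2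
    exact not_isUnit_zero h2
  · intro y hy
    obtain ⟨a, rfl⟩ := hq y
    apply Ideal.mem_map_of_mem
    rw [mem_maximalIdeal, mem_nonunits_iff] at hy ⊢
    intro hu
    exact hy (hu.map q)

/-- the dimension of a local ring whose maximal ideal is principal -/
theorem dim_le_one {W : Type} [CommRing W] [IsLocalRing W] [IsNoetherianRing W] (t : W)
    (hm : maximalIdeal W = Ideal.span {t}) : ringKrullDim W ≤ 1 := by
  refine (ringKrullDim_le_spanFinrank_maximalIdeal W).trans ?_
  have h1 : (maximalIdeal W).spanFinrank ≤ 1 := by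
    rw [hm]
    simpa using Submodule.spanFinrank_span_le_ncard_of_finite
      (R := W) (Set.finite_singleton t)
  exact_mod_cast h1

theorem not_dim {W : Type} [CommRing W] [IsLocalRing W] [IsNoetherianRing W] (t : W)
    (hm : maximalIdeal W = Ideal.span {t}) (h2 : ringKrullDim W = 2) : False := by
  have h1 := dim_le_one t hm
  rw [h2] at h1
  have h3 : ((2 : ℕ) : WithBot ℕ∞) ≤ ((1 : ℕ) : WithBot ℕ∞) := by exact_mod_cast h1
  have h4 : (2 : ℕ) ≤ 1 := by exact_mod_cast h3
  omega

/-- a member of a pair of generators is not in the square of the maximal ideal -/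
theorem not_mem_sq {W : Type} [CommRing W] [IsRegularLocalRing W] (hdim : ringKrullDim W = 2)
    (u t : W) (hm : maximalIdeal W = Ideal.span {u, t}) : u ∉ maximalIdeal W ^ 2 := by
  intro hu
  have h1 : maximalIdeal W ≤ Ideal.span {t} ⊔ maximalIdeal W • maximalIdeal W := by
    conv_lhs => rw [hm]
    rw [Ideal.span_le]
    rintro y (rfl | h)
    · refine Ideal.mem_sup_right ?_
      rwa [smul_eq_mul, ← pow_two]
    · refine Ideal.mem_sup_left ?_
      rw [Set.mem_singleton_iff] at h
      rw [h]
      exact Ideal.mem_span_singleton_self t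
  have h2 : maximalIdeal W ≤ Ideal.span {t} :=
    Submodule.le_of_le_smul_of_le_jacobson_bot (IsNoetherian.noetherian _)
      (maximalIdeal_le_jacobson _) h1
  have h3 : maximalIdeal W = Ideal.span {t} := by
    apply le_antisymm h2
    rw [Ideal.span_singleton_le_iff_mem, hm]
    exact Ideal.subset_span (by simp)
  exact not_dim t h3 hdim

theorem eq_zero_of_pow_eq_zero_aux {D : Type} [CommRing D] [IsDomain D] {x : D} {n : ℕ}
    (h : x ^ n = 0) : x = 0 := by
  by_contra hx
  exact pow_ne_zero n hx h

theorem ex_core (W : Type) [CommRing W] [IsRegularLocalRing W] (hdim : ringKrullDim W = 2)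
    (u t : W) (hm : maximalIdeal W = Ideal.span {u, t}) (hu : Prime u) (p : ℕ) [Fact p.Prime]
    (f : ℤ_[p] →+* W) (e a b r : ℕ) (he : e ≠ 0) (ha : a ≠ 0) (hrel : (p : W) = u + t ^ e) :
    CharZero (CX W u a b r) ∧
    ∃ (_ : IsLocalRing (CX W u a b r)) (y : CX W u a b r) (x : Fin (r + 2) → CX W u a b r),
      maximalIdeal (CX W u a b r) = Ideal.span (insert y (Set.range x)) ∧
      (p : CX W u a b r) = y ^ e + x 0 ^ a * x 1 ^ b := by
  obtain ⟨hreg, -⟩ := t_RG W hdim u t hm hu a b r ha
  have hdom : IsDomain (CX W u a b r) := Pool.Agent.H379R3.isDomain _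
  have hloc : IsLocalRing (CX W u a b r) := hreg.toIsLocalRing
  let q : MvPowerSeries (Fin (r + 2)) W →+* CX W u a b r := Ideal.Quotient.mk _
  have hq : Function.Surjective q := Ideal.Quotient.mk_surjective
  have hmu : u ∈ maximalIdeal W := by rw [hm]; exact Ideal.subset_span (by simp)
  have hmt : t ∈ maximalIdeal W := by rw [hm]; exact Ideal.subset_span (by simp)
  have hqu : q (MvPowerSeries.C u) = q (MvPowerSeries.X 0) ^ a * q (MvPowerSeries.X 1) ^ b := by
    rw [← map_pow, ← map_pow, ← map_mul, eq_comm, ← sub_eq_zero, ← map_sub]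
    exact Ideal.Quotient.eq_zero_iff_mem.2 (Ideal.mem_span_singleton_self _)
  have hp : (p : CX W u a b r) = q (MvPowerSeries.C (p : W)) := by
    rw [map_natCast, map_natCast]
  have hrel' : (p : CX W u a b r) = q (MvPowerSeries.C t) ^ e +
      q (MvPowerSeries.X 0) ^ a * q (MvPowerSeries.X 1) ^ b := by
    rw [hp, hrel, map_add, map_add, hqu, map_pow, map_pow]
    ring
  have hp0 : (p : CX W u a b r) ≠ 0 := by
    intro h
    rw [hp] at h
    have h1 := Ideal.Quotient.eq_zero_iff_mem.1 h
    rw [Ideal.mem_span_singleton] at h1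
    obtain ⟨g, hg⟩ := h1
    have h2 := congrArg MvPowerSeries.constantCoeff hg
    rw [MvPowerSeries.constantCoeff_C, map_mul, map_sub, map_mul, map_pow,
      MvPowerSeries.constantCoeff_X, zero_pow ha, zero_mul, zero_sub,
      MvPowerSeries.constantCoeff_C, hrel] at h2
    have h3 : u ∣ t ^ e := by
      refine ⟨-MvPowerSeries.constantCoeff g - 1, ?_⟩
      linear_combination h2
    have h4 : u ∣ t := hu.dvd_of_dvd_pow h3
    have h5 : maximalIdeal W = Ideal.span {u} := by
      apply le_antisymm
      · rw [hm, Ideal.span_le]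
        rintro y (rfl | h)
        · exact Ideal.mem_span_singleton_self _
        · rw [Set.mem_singleton_iff] at h
          rw [h]
          exact Ideal.mem_span_singleton.2 h4
      · rw [Ideal.span_singleton_le_iff_mem]
        exact hmu
    exact not_dim u h5 hdim
  refine ⟨?_, hloc, q (MvPowerSeries.C t), fun i => q (MvPowerSeries.X i), ?_, hrel'⟩
  · -- characteristic zero
    let φ : ℤ_[p] →+* CX W u a b r := (q.comp MvPowerSeries.C).comp f
    have hφ : Function.Injective φ := by
      rw [injective_iff_map_eq_zero]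
      intro x hx
      by_contra hx0
      have h1 := PadicInt.unitCoeff_spec hx0
      rw [h1, map_mul, map_pow, map_natCast] at hx
      rcases mul_eq_zero.1 hx with h | h
      · exact ((PadicInt.unitCoeff hx0).isUnit.map φ).ne_zero h
      · exact hp0 (eq_zero_of_pow_eq_zero_aux h)
    exact charZero_of_injective_ringHom hφ
  · -- the maximal ideal
    rw [← map_max q hq]
    apply le_antisymm
    · rw [Ideal.map_le_iff_le_comap]
      intro g hg
      rw [QPARaux.mem_max, hm, Ideal.mem_span_pair] at hg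
      obtain ⟨α, β, hαβ⟩ := hg
      rw [Ideal.mem_comap]
      have h1 : g - MvPowerSeries.C (MvPowerSeries.constantCoeff g) ∈
          Ideal.span (Set.range (MvPowerSeries.X : Fin (r + 2) →
            MvPowerSeries (Fin (r + 2)) W)) := by
        apply QPARaux.mem_span
        rw [map_sub, MvPowerSeries.constantCoeff_C, sub_self]
      have h2 : (Ideal.span (Set.range (MvPowerSeries.X : Fin (r + 2) →
            MvPowerSeries (Fin (r + 2)) W))).map q ≤ Ideal.span (insert (q (MvPowerSeries.C t))
            (Set.range fun i => q (MvPowerSeries.X i))) := by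
        rw [Ideal.map_le_iff_le_comap, Ideal.span_le]
        rintro _ ⟨i, rfl⟩
        exact Ideal.subset_span (Set.mem_insert_of_mem _ ⟨i, rfl⟩)
      have h3 := h2 (Ideal.mem_map_of_mem q h1)
      have h4 : q g = q (g - MvPowerSeries.C (MvPowerSeries.constantCoeff g)) +
          (q (MvPowerSeries.C α) * q (MvPowerSeries.C u) +
            q (MvPowerSeries.C β) * q (MvPowerSeries.C t)) := by
        have h5 : q (MvPowerSeries.C α) * q (MvPowerSeries.C u) +
            q (MvPowerSeries.C β) * q (MvPowerSeries.C t) =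
            q (MvPowerSeries.C (MvPowerSeries.constantCoeff g)) := by
          rw [← hαβ, map_add, map_add, map_mul, map_mul, map_mul, map_mul]
        rw [h5, ← map_add, sub_add_cancel]
      rw [h4]
      refine add_mem h3 (add_mem (Ideal.mul_mem_left _ _ ?_) (Ideal.mul_mem_left _ _ ?_))
      · rw [hqu]
        have h6 : q (MvPowerSeries.X 0) ∈ Ideal.span (insert (q (MvPowerSeries.C t))
            (Set.range fun i => q (MvPowerSeries.X i))) :=
          Ideal.subset_span (Set.mem_insert_of_mem _ ⟨0, rfl⟩)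
        exact Ideal.mul_mem_right _ _ (Ideal.pow_mem_of_mem _ h6 a (Nat.pos_of_ne_zero ha))
      · exact Ideal.subset_span (Set.mem_insert _ _)
    · rw [Ideal.span_le]
      rintro y (rfl | ⟨i, rfl⟩)
      · apply Ideal.mem_map_of_mem
        rw [QPARaux.mem_max, MvPowerSeries.constantCoeff_C]
        exact hmt
      · apply Ideal.mem_map_of_mem
        rw [QPARaux.mem_max, MvPowerSeries.constantCoeff_X]
        exact zero_mem _

/-- EX -/
theorem s_EX : S_EX := by
  intro p hp e a b r he ha hb
  have : Fact p.Prime := ⟨hp⟩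
  obtain ⟨G, hGd⟩ : ∃ G : MvPowerSeries (Fin 2) ℤ_[p],
      G = MvPowerSeries.X 1 + MvPowerSeries.X 0 ^ e := ⟨_, rfl⟩
  have hG : MvPowerSeries.constantCoeff G = 0 := by
    rw [hGd, map_add, map_pow, MvPowerSeries.constantCoeff_X, MvPowerSeries.constantCoeff_X,
      zero_pow he, add_zero]
  have hπ : Prime (p : ℤ_[p]) := PadicInt.prime_p
  obtain ⟨hreg, hcpl, hdim, hmax, hprime⟩ := t_WG ℤ_[p] (p : ℤ_[p]) hπ G hG
  have hrel : (p : WG ℤ_[p] (p : ℤ_[p]) G) = Ideal.Quotient.mk _ (MvPowerSeries.X 1) +
      Ideal.Quotient.mk _ (MvPowerSeries.X 0) ^ e := by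
    rw [← map_pow, ← map_add, ← hGd]
    have h1 : (p : WG ℤ_[p] (p : ℤ_[p]) G) =
        Ideal.Quotient.mk _ (MvPowerSeries.C (p : ℤ_[p])) :=
      (map_natCast ((Ideal.Quotient.mk (Ideal.span {(MvPowerSeries.C (p : ℤ_[p]) - G :
        MvPowerSeries (Fin 2) ℤ_[p])})).comp MvPowerSeries.C) p).symm
    rw [h1, ← sub_eq_zero, ← map_sub]
    exact Ideal.Quotient.eq_zero_iff_mem.2 (Ideal.mem_span_singleton_self _)
  obtain ⟨h1, h2⟩ := ex_core (WG ℤ_[p] (p : ℤ_[p]) G) hdim _ _ hmax hprime p
    ((Ideal.Quotient.mk _).comp MvPowerSeries.C) e a b r he ha hrel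
  exact ⟨WG ℤ_[p] (p : ℤ_[p]) G, inferInstance, hreg, hcpl, _, _, hdim, hmax, hprime,
    not_mem_sq hdim _ _ hmax, h1, h2⟩

end Pool.Agent.L7h73.BC
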